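import Pool.Agent.Q109.RC.Fin
import Pool.Agent.Q222.RC.CS
import Pool.Agent.Q222.RC.COL
import Pool.Agent.Q251.RC_EMB
import Pool.Agent.Q224.RC_FOU
import Pool.Agent.Q224.RC_GAP
import Pool.Agent.Q224.RC_LOC
import Pool.Agent.Q224.RC_SCALE

namespace Q109.RC

open Filter Topology Finset

theorem obl_holds : S_Obl :=
  obl (Q224.RC.gap Q224.RC.fou) (Q224.RC.loc Q224.RC.scale Q251.RC.emb) Pool.Agent.Q222.RC.cs Pool.Agent.Q222.RC.col

theorem all {p : ℝ} (hp0 : 0 < p) (hp1 : p < 1) :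
    ∃ c : ℝ, 0 < c ∧ Tendsto (fun n : ℕ => Pr p (Icc 1 n)
      (fun A => c * (n : ℝ) ^ 2 ≤ (S A).card)) atTop (𝓝 1) :=
  fin_main obl_holds hp0 hp1

end Q109.RC
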