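import Pool.Agent.Q109.RC.Stm

namespace Q109.RC

open Finset

theorem up_union_right {F G : Finset ℕ} {x : ℕ} (hd : Disjoint F G) (hG : ∀ w ∈ G, x ≤ w) :
    up (F ∪ G) x = up F x + ∑ w ∈ G, w := by
  classical
  unfold up
  rw [Finset.filter_union, Finset.sum_union (Finset.disjoint_filter_filter hd)]
  congr 1
  rw [Finset.filter_true_of_mem hG]

theorem Ico_split (s h : ℕ) : Ico s (s + 2 * h) = Ico s (s + h) ∪ Ico (s + h) (s + 2 * h) := by
  rw [Finset.Ico_union_Ico_eq_Ico] <;> omega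

theorem Ico_disj (s h : ℕ) : Disjoint (Ico s (s + h)) (Ico (s + h) (s + 2 * h)) :=
  Finset.Ico_disjoint_Ico_consecutive _ _ _

theorem bad_point (F G Y V : Finset ℕ) (hd : Disjoint F G) (hG : ∀ x ∈ F, ∀ w ∈ G, x ≤ w) :
    (bad (F ∪ G) F Y V : ℝ) ≤ ∑ x ∈ F, ∑ v ∈ V, ∑ y ∈ Y,
      (if ∑ w ∈ G, w + y + up F x = v then (1:ℝ) else 0) := by
  classical
  have e : (bad (F ∪ G) F Y V : ℝ) = ∑ x ∈ F, ∑ y ∈ Y,
      (if up (F ∪ G) x + y ∈ V then (1:ℝ) else 0) := by
    unfold bad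
    rw [Finset.card_filter, Finset.sum_product]
    push_cast
    rfl
  rw [e]
  refine Finset.sum_le_sum (fun x hx => ?_)
  rw [Finset.sum_comm]
  refine Finset.sum_le_sum (fun y hy => ?_)
  split_ifs with h
  · have h2 : (1:ℝ) ≤ ∑ v ∈ {up (F ∪ G) x + y},
        (if ∑ w ∈ G, w + y + up F x = v then (1:ℝ) else 0) := by
      rw [Finset.sum_singleton, up_union_right hd (hG x hx), if_pos (by ring)]
    refine h2.trans (Finset.sum_le_sum_of_subset_of_nonneg (Finset.singleton_subset_iff.2 h) ?_)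
    intros; split_ifs <;> norm_num
  · refine Finset.sum_nonneg (fun v _ => ?_)
    split_ifs <;> norm_num

theorem bad_ex : S_Bad := by
  classical
  intro p hp0 hp1 s h Y V β hβ
  have hβ0 : 0 ≤ β := le_trans (Finset.sum_nonneg (fun y _ => Pr_nonneg hp0.le hp1.le _)) (hβ 0)
  rw [Ico_split, Ex_union p (Ico_disj s h)]
  refine Ex_le hp0.le hp1.le (fun F hF => ?_)
  have e1 : Ex p (Ico (s + h) (s + 2 * h))
      (fun G => (bad (F ∪ G) ((F ∪ G) ∩ Ico s (s + h)) Y V : ℝ)) ≤
      Ex p (Ico (s + h) (s + 2 * h)) (fun G => ∑ x ∈ F, ∑ v ∈ V, ∑ y ∈ Y,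
      (if ∑ w ∈ G, w + y + up F x = v then (1:ℝ) else 0)) := by
    refine Ex_mono hp0.le hp1.le (fun G hG => ?_)
    have h1 : (F ∪ G) ∩ Ico s (s + h) = F := by
      ext w
      simp only [Finset.mem_inter, Finset.mem_union]
      constructor
      · rintro ⟨h1 | h1, h2⟩
        · exact h1
        · exact absurd (hG h1) (Finset.disjoint_left.1 (Ico_disj s h) h2)
      · intro h1
        exact ⟨Or.inl h1, hF h1⟩
    rw [h1]
    refine bad_point F G Y V (Finset.disjoint_of_subset_left hF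
      (Finset.disjoint_of_subset_right hG (Ico_disj s h))) (fun x hx w hw => ?_)
    have h2 := Finset.mem_Ico.1 (hF hx)
    have h3 := Finset.mem_Ico.1 (hG hw)
    omega
  refine e1.trans ?_
  rw [Ex_sum]
  have e2 : ∀ x ∈ F, Ex p (Ico (s + h) (s + 2 * h)) (fun G => ∑ v ∈ V, ∑ y ∈ Y,
      (if ∑ w ∈ G, w + y + up F x = v then (1:ℝ) else 0)) ≤ V.card * β := by
    intro x _
    rw [Ex_sum]
    have e3 : ∀ v ∈ V, Ex p (Ico (s + h) (s + 2 * h)) (fun G => ∑ y ∈ Y,
      (if ∑ w ∈ G, w + y + up F x = v then (1:ℝ) else 0)) ≤ β := by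
      intro v _
      rw [Ex_sum]
      by_cases hv : up F x ≤ v
      · refine le_trans (Finset.sum_le_sum (fun y _ => ?_)) (hβ (v - up F x))
        unfold Pr
        refine Ex_mono hp0.le hp1.le (fun G _ => ?_)
        by_cases h5 : ∑ w ∈ G, w + y + up F x = v
        · rw [if_pos h5, if_pos (show ∑ w ∈ G, w + y = v - up F x by omega)]
        · rw [if_neg h5, if_neg (show ¬ (∑ w ∈ G, w + y = v - up F x) by omega)]
      · refine le_trans (Finset.sum_nonpos (fun y _ => ?_)) hβ0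
        refine Ex_le hp0.le hp1.le (fun G _ => ?_)
        rw [if_neg (by omega)]
    refine (Finset.sum_le_sum e3).trans ?_
    rw [Finset.sum_const, nsmul_eq_mul]
  refine (Finset.sum_le_sum e2).trans ?_
  rw [Finset.sum_const, nsmul_eq_mul, ← mul_assoc]
  have hc : (F.card : ℝ) ≤ h := by
    have := Finset.card_le_card hF
    rw [Nat.card_Ico] at this
    have h3 : F.card ≤ h := by omega
    exact_mod_cast h3
  gcongr

end Q109.RC
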