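import Pool.Agent.Q109.RC.Stm

namespace Q109.RC

open Finset

theorem Ex_singleton_union (p : ℝ) {a : ℕ} {I : Finset ℕ} (h : a ∉ I) (f : Finset ℕ → ℝ) :
    Ex p (insert a I) f = (1 - p) * Ex p I f + p * Ex p I (fun F => f (insert a F)) := by
  have hd : Disjoint I {a} := Finset.disjoint_singleton_right.2 h
  have e : insert a I = I ∪ {a} := by rw [Finset.union_comm]; rfl
  rw [e, Ex_union p hd, ← Ex_mul, ← Ex_mul, ← Ex_add]
  refine Ex_congr (fun F _ => ?_)
  have hps : ({a} : Finset ℕ).powerset = {∅, {a}} := by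
    ext x; simp [Finset.subset_singleton_iff]
  unfold Ex
  rw [hps, Finset.sum_pair (by simp)]
  simp only [Finset.card_empty, pow_zero, Finset.card_singleton, tsub_zero, pow_one, one_mul,
    Finset.union_empty, tsub_self, mul_one]
  rw [Finset.union_comm F {a}]
  rfl

theorem Ex_card (p : ℝ) (I : Finset ℕ) : Ex p I (fun A => (A.card : ℝ)) = p * I.card := by
  induction I using Finset.induction_on with
  | empty => simp [Ex_empty]
  | insert a I ha ih =>
    rw [Ex_singleton_union p ha, ih]
    have : Ex p I (fun F => ((insert a F).card : ℝ)) = Ex p I (fun F => (F.card : ℝ) + 1) := by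
      refine Ex_congr (fun F hF => ?_)
      rw [Finset.card_insert_of_notMem (fun h => ha (hF h))]
      push_cast; rfl
    rw [this, Ex_add, ih, Ex_const, Finset.card_insert_of_notMem ha]
    push_cast; ring

theorem Ex_var (p : ℝ) (I : Finset ℕ) :
    Ex p I (fun A => ((A.card : ℝ) - p * I.card) ^ 2) = p * (1 - p) * I.card := by
  induction I using Finset.induction_on with
  | empty => simp [Ex_empty]
  | insert a I ha ih =>
    rw [Ex_singleton_union p ha, Finset.card_insert_of_notMem ha]
    have e1 : Ex p I (fun A => ((A.card : ℝ) - p * ((I.card + 1 : ℕ) : ℝ)) ^ 2) =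
        p * (1 - p) * I.card + p ^ 2 := by
      have : Ex p I (fun A => ((A.card : ℝ) - p * ((I.card + 1 : ℕ) : ℝ)) ^ 2) =
        Ex p I (fun A => ((A.card : ℝ) - p * I.card) ^ 2 + ((-2 * p) * (A.card : ℝ)
          + (2 * p ^ 2 * I.card + p ^ 2))) := by
        refine Ex_congr (fun F _ => ?_)
        push_cast; ring
      rw [this, Ex_add, Ex_add, Ex_mul, Ex_const, ih, Ex_card]
      ring
    have e2 : Ex p I (fun A => (((insert a A).card : ℝ) - p * ((I.card + 1 : ℕ) : ℝ)) ^ 2) =
        p * (1 - p) * I.card + (1 - p) ^ 2 := by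
      have : Ex p I (fun A => (((insert a A).card : ℝ) - p * ((I.card + 1 : ℕ) : ℝ)) ^ 2) =
        Ex p I (fun A => ((A.card : ℝ) - p * I.card) ^ 2 + ((2 * (1 - p)) * (A.card : ℝ)
          + (-(2 * (1 - p) * p * I.card) + (1 - p) ^ 2))) := by
        refine Ex_congr (fun F hF => ?_)
        rw [Finset.card_insert_of_notMem (fun h => ha (hF h))]
        push_cast; ring
      rw [this, Ex_add, Ex_add, Ex_mul, Ex_const, ih, Ex_card]
      ring
    rw [e1, e2]
    push_cast; ring

theorem cheb : S_Cheb := by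
  intro p hp0 hp1 I hI
  have hc : (0 : ℝ) < I.card := by exact_mod_cast hI.card_pos
  have h1 : Pr p I (fun A => (A.card : ℝ) < p * I.card / 2) ≤
      Pr p I (fun A => (p * I.card / 2) ^ 2 ≤ ((A.card : ℝ) - p * I.card) ^ 2) := by
    refine Pr_mono hp0.le hp1.le (fun F _ h => ?_)
    have h2 : 0 < p * I.card / 2 := by positivity
    nlinarith
  refine h1.trans ((markov hp0.le hp1.le (fun F _ => sq_nonneg _) (by positivity)).trans ?_)
  rw [Ex_var]
  rw [div_le_div_iff₀ (by positivity) (by positivity)]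
  have : 0 < p * I.card := by positivity
  nlinarith [mul_pos this this, mul_pos (mul_pos this this) hp0]

theorem Ex_le_Pr {p : ℝ} (hp0 : 0 ≤ p) (hp1 : p ≤ 1) (I : Finset ℕ) (E : Finset ℕ → Prop)
    (f : Finset ℕ → ℝ) {a b : ℝ} (h1 : ∀ F ⊆ I, E F → f F ≤ a)
    (h2 : ∀ F ⊆ I, ¬ E F → f F ≤ b) :
    Ex p I f ≤ Pr p I E * a + (1 - Pr p I E) * b := by
  classical
  have : Pr p I E * a + (1 - Pr p I E) * b = Ex p I (fun F => if E F then a else b) := by
    have e : Ex p I (fun F => if E F then a else b) =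
        Ex p I (fun F => (a - b) * (if E F then 1 else 0) + b) := by
      refine Ex_congr (fun F _ => ?_)
      split_ifs <;> ring
    rw [e, Ex_add, Ex_const, Ex_mul]
    have e3 : Ex p I (fun F => if E F then (1:ℝ) else 0) = Pr p I E := by
      unfold Pr; rfl
    rw [e3]
    ring
  rw [this]
  refine Ex_mono hp0 hp1 (fun F hF => ?_)
  split_ifs with h
  · exact h1 F hF h
  · exact h2 F hF h

end Q109.RC
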