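import Mathlib

/-!
Random subsets of finite sets of naturals, definitions and basic lemmas
(project RC of helper109, problem MP_a40b8c_co).
-/

namespace Q109.RC

open Finset

/-- Expectation of `f A` where `A` is the `p`-random subset of the finite set `I`. -/
noncomputable def Ex (p : ℝ) (I : Finset ℕ) (f : Finset ℕ → ℝ) : ℝ :=
  ∑ F ∈ I.powerset, p ^ F.card * (1 - p) ^ (I.card - F.card) * f F

open Classical in
/-- Probability of the event `E A` where `A` is the `p`-random subset of `I`. -/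
noncomputable def Pr (p : ℝ) (I : Finset ℕ) (E : Finset ℕ → Prop) : ℝ :=
  Ex p I (fun F => if E F then 1 else 0)

/-- `T p I f t` = expectation of `f (t + sum of A)`, `A` the `p`-random subset of `I`. -/
noncomputable def T (p : ℝ) (I : Finset ℕ) (f : ℕ → ℝ) (t : ℕ) : ℝ :=
  Ex p I (fun F => f (t + ∑ z ∈ F, z))

/-- Sum of the elements of `A` which are at least `x`. -/
def up (A : Finset ℕ) (x : ℕ) : ℕ := ∑ z ∈ A with x ≤ z, z

/-- The sums `up A x + y` with `x ∈ A`, `y ∈ Y`. -/
def New (A Y : Finset ℕ) : Finset ℕ := (A ×ˢ Y).image (fun q => up A q.1 + q.2)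

variable {p : ℝ} {I J : Finset ℕ} {f g : Finset ℕ → ℝ}

theorem Ex_const (p : ℝ) (I : Finset ℕ) (c : ℝ) : Ex p I (fun _ => c) = c := by
  unfold Ex
  rw [← Finset.sum_mul, Finset.sum_pow_mul_eq_add_pow]
  simp

theorem Ex_add (p : ℝ) (I : Finset ℕ) (f g : Finset ℕ → ℝ) :
    Ex p I (fun F => f F + g F) = Ex p I f + Ex p I g := by
  unfold Ex
  rw [← Finset.sum_add_distrib]
  exact Finset.sum_congr rfl (fun F _ => by ring)

theorem Ex_sub (p : ℝ) (I : Finset ℕ) (f g : Finset ℕ → ℝ) :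
    Ex p I (fun F => f F - g F) = Ex p I f - Ex p I g := by
  unfold Ex
  rw [← Finset.sum_sub_distrib]
  exact Finset.sum_congr rfl (fun F _ => by ring)

theorem Ex_mul (p : ℝ) (I : Finset ℕ) (c : ℝ) (f : Finset ℕ → ℝ) :
    Ex p I (fun F => c * f F) = c * Ex p I f := by
  unfold Ex
  rw [Finset.mul_sum]
  exact Finset.sum_congr rfl (fun F _ => by ring)

theorem Ex_sum {ι : Type*} (p : ℝ) (I : Finset ℕ) (s : Finset ι) (f : ι → Finset ℕ → ℝ) :
    Ex p I (fun F => ∑ i ∈ s, f i F) = ∑ i ∈ s, Ex p I (f i) := by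
  unfold Ex
  rw [Finset.sum_comm]
  exact Finset.sum_congr rfl (fun F _ => by rw [Finset.mul_sum])

theorem Ex_congr (h : ∀ F ⊆ I, f F = g F) : Ex p I f = Ex p I g := by
  unfold Ex
  refine Finset.sum_congr rfl (fun F hF => ?_)
  rw [h F (Finset.mem_powerset.1 hF)]

theorem Ex_mono (h0 : 0 ≤ p) (h1 : p ≤ 1) (h : ∀ F ⊆ I, f F ≤ g F) : Ex p I f ≤ Ex p I g := by
  unfold Ex
  refine Finset.sum_le_sum (fun F hF => ?_)
  have h1' : 0 ≤ 1 - p := by linarith
  exact mul_le_mul_of_nonneg_left (h F (Finset.mem_powerset.1 hF)) (by positivity)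

theorem Ex_nonneg (h0 : 0 ≤ p) (h1 : p ≤ 1) (h : ∀ F ⊆ I, 0 ≤ f F) : 0 ≤ Ex p I f := by
  have := Ex_mono (f := fun _ => 0) (g := f) h0 h1 h
  rwa [Ex_const] at this

theorem Ex_le (h0 : 0 ≤ p) (h1 : p ≤ 1) {c : ℝ} (h : ∀ F ⊆ I, f F ≤ c) : Ex p I f ≤ c := by
  have := Ex_mono (g := fun _ => c) (f := f) h0 h1 h
  rwa [Ex_const] at this

theorem le_Ex (h0 : 0 ≤ p) (h1 : p ≤ 1) {c : ℝ} (h : ∀ F ⊆ I, c ≤ f F) : c ≤ Ex p I f := by
  have := Ex_mono (f := fun _ => c) (g := f) h0 h1 h
  rwa [Ex_const] at this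

theorem Ex_empty (p : ℝ) (f : Finset ℕ → ℝ) : Ex p ∅ f = f ∅ := by
  simp [Ex]

theorem Ex_union (p : ℝ) (h : Disjoint I J) (f : Finset ℕ → ℝ) :
    Ex p (I ∪ J) f = Ex p I (fun F => Ex p J (fun G => f (F ∪ G))) := by
  classical
  unfold Ex
  have e1 : ∑ F ∈ I.powerset, p ^ F.card * (1 - p) ^ (I.card - F.card) *
      (∑ G ∈ J.powerset, p ^ G.card * (1 - p) ^ (J.card - G.card) * f (F ∪ G)) =
      ∑ x ∈ I.powerset ×ˢ J.powerset, p ^ (x.1 ∪ x.2).card *
        (1 - p) ^ ((I ∪ J).card - (x.1 ∪ x.2).card) * f (x.1 ∪ x.2) := by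
    rw [Finset.sum_product]
    refine Finset.sum_congr rfl (fun F hF => ?_)
    rw [Finset.mul_sum]
    refine Finset.sum_congr rfl (fun G hG => ?_)
    have hF' := Finset.mem_powerset.1 hF
    have hG' := Finset.mem_powerset.1 hG
    have hd : Disjoint F G := Finset.disjoint_of_subset_left hF'
      (Finset.disjoint_of_subset_right hG' h)
    simp only
    rw [Finset.card_union_of_disjoint hd, Finset.card_union_of_disjoint h]
    have c1 := Finset.card_le_card hF'
    have c2 := Finset.card_le_card hG'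
    have : I.card + J.card - (F.card + G.card) = (I.card - F.card) + (J.card - G.card) := by
      omega
    rw [this, pow_add, pow_add]
    ring
  rw [e1]
  symm
  refine Finset.sum_bij (fun x _ => x.1 ∪ x.2) ?_ ?_ ?_ ?_
  · intro x hx
    simp only [Finset.mem_product, Finset.mem_powerset] at hx ⊢
    exact Finset.union_subset_union hx.1 hx.2
  · intro x hx y hy hxy
    simp only [Finset.mem_product, Finset.mem_powerset] at hx hy hxy
    have hdx : ∀ z, z ∈ I → z ∉ J := fun z hz hz' => Finset.disjoint_left.1 h hz hz'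
    have h1 : x.1 = y.1 := by
      ext z
      have := congrArg (fun s => z ∈ s) hxy
      simp only [Finset.mem_union, eq_iff_iff] at this
      constructor
      · intro hz
        rcases this.1 (Or.inl hz) with h' | h'
        · exact h'
        · exact absurd (hy.2 h') (hdx z (hx.1 hz))
      · intro hz
        rcases this.2 (Or.inl hz) with h' | h'
        · exact h'
        · exact absurd (hx.2 h') (hdx z (hy.1 hz))
    have h2 : x.2 = y.2 := by
      ext z
      have := congrArg (fun s => z ∈ s) hxy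
      simp only [Finset.mem_union, eq_iff_iff] at this
      constructor
      · intro hz
        rcases this.1 (Or.inr hz) with h' | h'
        · exact absurd (hx.2 hz) (hdx z (hy.1 h'))
        · exact h'
      · intro hz
        rcases this.2 (Or.inr hz) with h' | h'
        · exact absurd (hy.2 hz) (hdx z (hx.1 h'))
        · exact h'
    exact Prod.ext h1 h2
  · intro F hF
    refine ⟨(F ∩ I, F ∩ J), ?_, ?_⟩
    · simp only [Finset.mem_product, Finset.mem_powerset]
      exact ⟨Finset.inter_subset_right, Finset.inter_subset_right⟩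
    · simp only
      rw [← Finset.inter_union_distrib_left]
      exact Finset.inter_eq_left.2 (Finset.mem_powerset.1 hF)
  · intro x hx
    rfl

/-- the random subset of `I`, restricted to `J ⊆ I`, is the random subset of `J` -/
theorem Ex_restrict (p : ℝ) (h : J ⊆ I) (f : Finset ℕ → ℝ) :
    Ex p I (fun F => f (F ∩ J)) = Ex p J f := by
  classical
  have hI : I = J ∪ (I \ J) := (Finset.union_sdiff_of_subset h).symm
  have hd : Disjoint J (I \ J) := Finset.disjoint_sdiff
  calc Ex p I (fun F => f (F ∩ J)) = Ex p (J ∪ (I \ J)) (fun F => f (F ∩ J)) := by rw [← hI]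
    _ = Ex p J (fun F => Ex p (I \ J) (fun G => f ((F ∪ G) ∩ J))) := Ex_union p hd _
    _ = Ex p J (fun F => Ex p (I \ J) (fun _ => f F)) := by
        refine Ex_congr (fun F hF => Ex_congr (fun G hG => ?_))
        congr 1
        ext z
        simp only [Finset.mem_inter, Finset.mem_union]
        constructor
        · rintro ⟨h1 | h1, h2⟩
          · exact h1
          · exact absurd h2 (Finset.mem_sdiff.1 (hG h1)).2
        · intro h1
          exact ⟨Or.inl h1, hF h1⟩
    _ = Ex p J f := by simp only [Ex_const]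

theorem Pr_nonneg (h0 : 0 ≤ p) (h1 : p ≤ 1) (E : Finset ℕ → Prop) : 0 ≤ Pr p I E := by
  classical
  unfold Pr
  refine Ex_nonneg h0 h1 (fun F _ => ?_)
  split_ifs <;> norm_num

theorem Pr_le_one (h0 : 0 ≤ p) (h1 : p ≤ 1) (E : Finset ℕ → Prop) : Pr p I E ≤ 1 := by
  classical
  unfold Pr
  refine Ex_le h0 h1 (fun F _ => ?_)
  split_ifs <;> norm_num

theorem Pr_mono (h0 : 0 ≤ p) (h1 : p ≤ 1) {E E' : Finset ℕ → Prop}
    (h : ∀ F ⊆ I, E F → E' F) : Pr p I E ≤ Pr p I E' := by
  classical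
  unfold Pr
  refine Ex_mono h0 h1 (fun F hF => ?_)
  split_ifs with h1 h2 h2
  · exact le_rfl
  · exact absurd (h F hF h1) h2
  · norm_num
  · exact le_rfl

theorem Pr_compl (p : ℝ) (I : Finset ℕ) (E : Finset ℕ → Prop) :
    Pr p I (fun F => ¬ E F) = 1 - Pr p I E := by
  classical
  unfold Pr
  rw [eq_sub_iff_add_eq, ← Ex_add]
  have h := Ex_const p I 1
  refine Eq.trans (Ex_congr (fun F _ => ?_)) h
  by_cases h1 : E F <;> simp [h1]

theorem Pr_or_le (h0 : 0 ≤ p) (h1 : p ≤ 1) (E E' : Finset ℕ → Prop) :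
    Pr p I (fun F => E F ∨ E' F) ≤ Pr p I E + Pr p I E' := by
  classical
  unfold Pr
  rw [← Ex_add]
  refine Ex_mono h0 h1 (fun F _ => ?_)
  by_cases h1 : E F <;> by_cases h2 : E' F <;> simp [h1, h2]

/-- Markov -/
theorem markov (h0 : 0 ≤ p) (h1 : p ≤ 1) (hf : ∀ F ⊆ I, 0 ≤ f F) {t : ℝ} (ht : 0 < t) :
    Pr p I (fun F => t ≤ f F) ≤ Ex p I f / t := by
  classical
  rw [le_div_iff₀ ht]
  unfold Pr
  rw [mul_comm, ← Ex_mul]
  refine Ex_mono h0 h1 (fun F hF => ?_)
  split_ifs with h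
  · simpa using h
  · simpa using hf F hF

/-- `Pr` over a union, conditionally on the first set. -/
theorem Pr_union (p : ℝ) (h : Disjoint I J) (E : Finset ℕ → Prop) :
    Pr p (I ∪ J) E = Ex p I (fun F => Pr p J (fun G => E (F ∪ G))) := by
  unfold Pr
  exact Ex_union p h _

theorem Pr_restrict (p : ℝ) (h : J ⊆ I) (E : Finset ℕ → Prop) :
    Pr p I (fun F => E (F ∩ J)) = Pr p J E := by
  classical
  unfold Pr
  exact Ex_restrict p h (fun F => if E F then (1:ℝ) else 0)

theorem mem_New {A Y : Finset ℕ} {s : ℕ} :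
    s ∈ New A Y ↔ ∃ x ∈ A, ∃ y ∈ Y, up A x + y = s := by
  unfold New
  simp only [Finset.mem_image, Finset.mem_product, Prod.exists]
  constructor
  · rintro ⟨x, y, ⟨h1, h2⟩, h3⟩
    exact ⟨x, h1, y, h2, h3⟩
  · rintro ⟨x, h1, y, h2, h3⟩
    exact ⟨x, y, ⟨h1, h2⟩, h3⟩

end Q109.RC
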