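import Pool.Agent.Q109.RC.Stm

namespace Q109.RC

open Finset

theorem run_point (A : Finset ℕ) (a b d : ℕ) (hA : A ⊆ Ico a b) :
    ((A ×ˢ A).filter
      (fun q => q.1 < q.2 ∧ ∑ w ∈ A with (q.1 ≤ w ∧ w < q.2), w = d)).card ≤
    ∑ x ∈ Ico a b, ((Ico x b).filter (fun z => x ∈ A ∩ Icc x z ∧ z ∈ A ∩ Icc x z ∧
      ∑ w ∈ A ∩ Icc x z, w = d)).card := by
  classical
  rw [← Finset.card_sigma]
  refine Finset.card_le_card_of_injOn
    (fun q => (⟨q.1, (A.filter (fun w => q.1 ≤ w ∧ w < q.2)).sup id⟩ : Σ _ : ℕ, ℕ)) ?_ ?_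
  · rintro ⟨x, x'⟩ hq
    simp only [Finset.coe_filter, Finset.mem_product, Set.mem_ofPred_eq] at hq
    obtain ⟨⟨hx, hx'⟩, hlt, hs⟩ := hq
    have hne : (A.filter (fun w => x ≤ w ∧ w < x')).Nonempty :=
      ⟨x, Finset.mem_filter.2 ⟨hx, le_rfl, hlt⟩⟩
    obtain ⟨z, hz, hze⟩ := Finset.exists_mem_eq_sup _ hne id
    have hz' := Finset.mem_filter.1 hz
    simp only [id] at hze
    have hset : A ∩ Icc x z = A.filter (fun w => x ≤ w ∧ w < x') := by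
      ext w
      simp only [Finset.mem_inter, Finset.mem_Icc, Finset.mem_filter]
      constructor
      · rintro ⟨h1, h2, h3⟩
        exact ⟨h1, h2, lt_of_le_of_lt h3 hz'.2.2⟩
      · rintro ⟨h1, h2, h3⟩
        refine ⟨h1, h2, ?_⟩
        rw [← hze]
        exact Finset.le_sup (f := id) (Finset.mem_filter.2 ⟨h1, h2, h3⟩)
    simp only [Finset.coe_sigma, Set.mem_sigma_iff, Finset.mem_coe, Finset.mem_filter]
    refine ⟨hA hx, ?_⟩
    rw [hze]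
    have hzb := Finset.mem_Ico.1 (hA hz'.1)
    refine ⟨Finset.mem_Ico.2 ⟨hz'.2.1, hzb.2⟩, ?_, ?_, ?_⟩
    · exact Finset.mem_inter.2 ⟨hx, Finset.mem_Icc.2 ⟨le_rfl, hz'.2.1⟩⟩
    · exact Finset.mem_inter.2 ⟨hz'.1, Finset.mem_Icc.2 ⟨hz'.2.1, le_rfl⟩⟩
    · rw [hset]; exact hs
  · rintro ⟨x, x1⟩ h1 ⟨y, x2⟩ h2 he
    simp only [Finset.coe_filter, Finset.mem_product, Set.mem_ofPred_eq] at h1 h2
    obtain ⟨⟨hx, hx1⟩, hlt1, _⟩ := h1
    obtain ⟨⟨hy, hx2⟩, hlt2, _⟩ := h2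
    simp only [Sigma.mk.injEq, heq_eq_eq] at he
    obtain ⟨rfl, he⟩ := he
    have key : ∀ u v : ℕ, u ∈ A → v ∈ A → x < u → x < v → u < v →
        (A.filter (fun w => x ≤ w ∧ w < u)).sup id = (A.filter (fun w => x ≤ w ∧ w < v)).sup id →
        False := by
      intro u v hu hv hxu hxv huv heq
      have h3 : u ≤ (A.filter (fun w => x ≤ w ∧ w < v)).sup id :=
        Finset.le_sup (f := id) (Finset.mem_filter.2 ⟨hu, hxu.le, huv⟩)
      have h4 : (A.filter (fun w => x ≤ w ∧ w < u)).sup id < u := by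
        rw [Finset.sup_lt_iff (by simpa using lt_of_le_of_lt (Nat.zero_le _) hxu)]
        intro w hw
        exact (Finset.mem_filter.1 hw).2.2
      omega
    rcases lt_trichotomy x1 x2 with h | h | h
    · exact (key x1 x2 hx1 hx2 hlt1 hlt2 h he).elim
    · simp [h]
    · exact (key x2 x1 hx2 hx1 hlt2 hlt1 h he.symm).elim

theorem run : S_Run := by
  classical
  intro p hp0 hp1 a b d
  have h1 : Ex p (Ico a b) (fun A => (((A ×ˢ A).filter
      (fun q => q.1 < q.2 ∧ ∑ w ∈ A with (q.1 ≤ w ∧ w < q.2), w = d)).card : ℝ)) ≤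
      Ex p (Ico a b) (fun A => ∑ x ∈ Ico a b, ∑ z ∈ Ico x b,
        (if (x ∈ A ∩ Icc x z ∧ z ∈ A ∩ Icc x z ∧ ∑ w ∈ A ∩ Icc x z, w = d) then (1:ℝ) else 0)) := by
    refine Ex_mono hp0.le hp1.le (fun A hA => ?_)
    have h := run_point A a b d hA
    have h' : (((A ×ˢ A).filter
      (fun q => q.1 < q.2 ∧ ∑ w ∈ A with (q.1 ≤ w ∧ w < q.2), w = d)).card : ℝ) ≤
      ((∑ x ∈ Ico a b, ((Ico x b).filter (fun z => x ∈ A ∩ Icc x z ∧ z ∈ A ∩ Icc x z ∧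
      ∑ w ∈ A ∩ Icc x z, w = d)).card : ℕ) : ℝ) := by exact_mod_cast h
    refine h'.trans (le_of_eq ?_)
    push_cast
    refine Finset.sum_congr rfl (fun x _ => ?_)
    rw [Finset.card_filter]
    push_cast
    rfl
  refine h1.trans (le_of_eq ?_)
  rw [Ex_sum]
  refine Finset.sum_congr rfl (fun x hx => ?_)
  rw [Ex_sum]
  refine Finset.sum_congr rfl (fun z hz => ?_)
  have hsub : Icc x z ⊆ Ico a b := by
    intro w hw
    have h1 := Finset.mem_Icc.1 hw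
    have h2 := Finset.mem_Ico.1 hx
    have h3 := Finset.mem_Ico.1 hz
    exact Finset.mem_Ico.2 ⟨h2.1.trans h1.1, lt_of_le_of_lt h1.2 h3.2⟩
  rw [← Pr_restrict p hsub (fun F => x ∈ F ∧ z ∈ F ∧ ∑ w ∈ F, w = d)]
  unfold Pr
  exact Ex_congr (fun F _ => by congr)

end Q109.RC
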