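import Pool.Agent.Q109.RC.Cheb
import Pool.Agent.Q109.RC.Run
import Pool.Agent.Q109.RC.Bad

namespace Q109.RC

open Finset

theorem obl_num {p C M n h a y bd cl D : ℝ} (hp0 : 0 < p) (hC : 0 < C) (hM : 0 < M)
    (hn : 0 < n) (hh : 0 < h) (hnh : n ≤ 64 * M * h) (ha : p * h / 2 ≤ a) (hah : a ≤ h)
    (hy : p * n / 8 ≤ y) (hbd0 : 0 ≤ bd) (hbd : bd < h * p ^ 2 * n / 32) (hcl0 : 0 ≤ cl)
    (hcl : cl < 3 * C * y * h) (hD : 0 ≤ D)
    (hcs : (a * y - bd) ^ 2 ≤ D * (a * y + 2 * cl)) :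
    p ^ 3 / (8192 * (1 + 6 * C)) * n ^ 2 / M ≤ D := by
  have hy0 : 0 < y := lt_of_lt_of_le (by positivity) hy
  have h1 : p * h * y / 2 ≤ a * y := by
    have := mul_le_mul_of_nonneg_right ha hy0.le
    linarith
  have h2 : h * p ^ 2 * n / 32 ≤ p * h * y / 4 := by
    have := mul_le_mul_of_nonneg_left hy (by positivity : 0 ≤ p * h / 4)
    linarith
  have h3 : p * h * y / 4 ≤ a * y - bd := by linarith
  have h4 : (p * h * y / 4) ^ 2 ≤ (a * y - bd) ^ 2 := by
    have : 0 ≤ p * h * y / 4 := by positivity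
    nlinarith
  have h5 : a * y + 2 * cl ≤ h * y * (1 + 6 * C) := by
    have := mul_le_mul_of_nonneg_right hah hy0.le
    nlinarith
  have h6 : (p * h * y / 4) ^ 2 ≤ D * (h * y * (1 + 6 * C)) :=
    (h4.trans hcs).trans (mul_le_mul_of_nonneg_left h5 hD)
  have h7 : p ^ 2 * h * y / 16 ≤ D * (1 + 6 * C) := by
    have h8 : (p ^ 2 * h * y / 16) * (h * y) ≤ (D * (1 + 6 * C)) * (h * y) := by nlinarith
    exact le_of_mul_le_mul_right h8 (by positivity)
  have h9 : p ^ 3 * n ^ 2 / (8192 * M) ≤ p ^ 2 * h * y / 16 := by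
    rw [div_le_div_iff₀ (by positivity) (by norm_num)]
    have h10 : n * n ≤ 64 * M * h * (8 * y / p) := by
      have h11 : n ≤ 8 * y / p := by
        rw [le_div_iff₀ hp0]; linarith
      exact mul_le_mul hnh h11 hn.le (by positivity)
    have h12 : p * (n * n) ≤ 64 * M * h * (8 * y) := by
      have := mul_le_mul_of_nonneg_left h10 hp0.le
      have e : p * (64 * M * h * (8 * y / p)) = 64 * M * h * (8 * y) := by
        field_simp
      rwa [e] at this
    have := mul_le_mul_of_nonneg_left h12 (by positivity : 0 ≤ 16 * p ^ 2)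
    nlinarith
  have h13 : p ^ 3 / (8192 * (1 + 6 * C)) * n ^ 2 / M = p ^ 3 * n ^ 2 / (8192 * M) / (1 + 6 * C) := by
    field_simp
  rw [h13, div_le_iff₀ (by positivity)]
  exact h9.trans h7

theorem obl (hGap : S_Gap) (hLoc : S_Loc) (hCS : S_CS) (hCol : S_Col) : S_Obl := by
  classical
  intro p hp0 hp1
  obtain ⟨C, hC, hgap⟩ := hGap p hp0 hp1
  refine ⟨p ^ 3 / (8192 * (1 + 6 * C)), by positivity, fun M hM => ?_⟩
  obtain ⟨n₁, hn₁⟩ := hLoc p hp0 hp1 M
  obtain ⟨n₂, hn₂⟩ := exists_nat_gt (24 * 64 * M / p)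
  refine ⟨max (max n₁ n₂) 1, fun n hn s h hnh hhn hns hsn Y V hY hYl hYu hV => ?_⟩
  have hn1 : n₁ ≤ n := (le_max_left _ _).trans ((le_max_left _ _).trans hn)
  have hn2 : n₂ ≤ n := (le_max_right _ _).trans ((le_max_left _ _).trans hn)
  have hn0 : 0 < n := (le_max_right _ _).trans hn
  have hnR : (0:ℝ) < n := by exact_mod_cast hn0
  have hMR : (0:ℝ) < M := by exact_mod_cast hM
  have hh : 0 < h := by
    rcases Nat.eq_zero_or_pos h with h0 | h0
    · subst h0; omega
    · exact h0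
  have hhR : (0:ℝ) < h := by exact_mod_cast hh
  have hnhR : (n:ℝ) ≤ 64 * M * h := by exact_mod_cast hnh
  have hs1 : 1 ≤ s := by omega
  have hYR : 0 < (Y.card : ℝ) := lt_of_lt_of_le (by positivity) hYl
  have hI : Ico s (s + h) ⊆ Ico s (s + 2 * h) := Finset.Ico_subset_Ico le_rfl (by omega)
  -- Chebyshev
  have P1 : Pr p (Ico s (s + 2 * h)) (fun A => ((A ∩ Ico s (s + h)).card : ℝ) < p * h / 2)
      ≤ 1 / 6 := by
    have h1 := cheb p hp0 hp1 (Ico s (s + h)) (Finset.nonempty_Ico.2 (by omega))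
    rw [Nat.card_Ico, Nat.add_sub_cancel_left] at h1
    rw [Pr_restrict p hI (fun A => (A.card : ℝ) < p * h / 2)]
    refine h1.trans ?_
    rw [div_le_div_iff₀ (by positivity) (by norm_num)]
    have h2 : 24 * 64 * M / p < n := lt_of_lt_of_le hn₂ (by exact_mod_cast hn2)
    rw [div_lt_iff₀ hp0] at h2
    have h3 : 24 * 64 * (M:ℝ) ≤ (64 * M * h) * p :=
      h2.le.trans (mul_le_mul_of_nonneg_right hnhR hp0.le)
    have h4 : (24:ℝ) * (64 * M) ≤ (h * p) * (64 * M) := by linarith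
    have h5 := le_of_mul_le_mul_right h4 (by positivity)
    linarith
  -- bad
  have P2 : Pr p (Ico s (s + 2 * h)) (fun A => h * p ^ 2 * n / 32 ≤
      (bad A (A ∩ Ico s (s + h)) Y V : ℝ)) ≤ 1 / 6 := by
    have hβ : ∀ v : ℕ, ∑ y ∈ Y, Pr p (Ico (s + h) (s + 2 * h))
        (fun A => ∑ w ∈ A, w + y = v) ≤ 5 / n := by
      intro v
      have := hn₁ n hn1 (s + h) h hnh Y hY v
      have e : s + h + h = s + 2 * h := by ring
      rwa [e] at this
    have hE := bad_ex p hp0 hp1 s h Y V (5 / n) hβ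
    refine (markov hp0.le hp1.le (fun F _ => Nat.cast_nonneg _) (by positivity)).trans ?_
    rw [div_le_div_iff₀ (by positivity) (by norm_num)]
    have h2 : (h:ℝ) * V.card * (5 / n) ≤ h * (p ^ 2 / 960 * n ^ 2) * (5 / n) := by gcongr
    have h3 : (h:ℝ) * (p ^ 2 / 960 * n ^ 2) * (5 / n) = h * p ^ 2 * n / 192 := by
      field_simp; ring
    linarith
  -- collisions
  have P3 : Pr p (Ico s (s + 2 * h)) (fun A => 3 * C * Y.card * h ≤
      (coll A (A ∩ Ico s (s + h)) Y : ℝ)) ≤ 1 / 6 := by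
    have hE := hCol p hp0 hp1 s h n Y C hn0 hs1 (by omega) hY (fun d =>
      (run p hp0 hp1 s (s + h) d).trans (hgap s (s + h) d hs1 (by omega)))
    refine (markov hp0.le hp1.le (fun F _ => Nat.cast_nonneg _) (by positivity)).trans ?_
    rw [div_le_div_iff₀ (by positivity) (by norm_num)]
    linarith
  -- combine
  have hcomb : Pr p (Ico s (s + 2 * h)) (fun A => ¬ ((V.card : ℝ) +
      p ^ 3 / (8192 * (1 + 6 * C)) * n ^ 2 / M ≤ (V ∪ New A Y).card)) ≤ 1 / 2 := by
    refine le_trans (Pr_mono hp0.le hp1.le (E' := fun A =>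
      ((A ∩ Ico s (s + h)).card : ℝ) < p * h / 2 ∨ (h * p ^ 2 * n / 32 ≤
      (bad A (A ∩ Ico s (s + h)) Y V : ℝ) ∨ 3 * C * Y.card * h ≤
      (coll A (A ∩ Ico s (s + h)) Y : ℝ))) (fun A hA hbad => ?_)) ?_
    · by_contra hcon
      push Not at hcon
      obtain ⟨h1, h2, h3⟩ := hcon
      refine hbad ?_
      have hsub : V ⊆ V ∪ New A Y := Finset.subset_union_left
      have hD : 0 ≤ (((V ∪ New A Y).card : ℝ) - V.card) := by
        have := Finset.card_le_card hsub
        have : (V.card : ℝ) ≤ (V ∪ New A Y).card := by exact_mod_cast this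
        linarith
      have hcs := hCS A (A ∩ Ico s (s + h)) Y V Finset.inter_subset_left
      have hah : ((A ∩ Ico s (s + h)).card : ℝ) ≤ h := by
        have := Finset.card_le_card (Finset.inter_subset_right : A ∩ Ico s (s + h) ⊆ _)
        rw [Nat.card_Ico, Nat.add_sub_cancel_left] at this
        exact_mod_cast this
      have := obl_num hp0 hC hMR hnR hhR hnhR h1 hah hYl (Nat.cast_nonneg _) h2
        (Nat.cast_nonneg _) h3 hD hcs
      linarith
    · refine (Pr_or_le hp0.le hp1.le _ _).trans ?_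
      have h12 := Pr_or_le (I := Ico s (s + 2 * h)) hp0.le hp1.le (fun A => h * p ^ 2 * n / 32 ≤
        (bad A (A ∩ Ico s (s + h)) Y V : ℝ)) (fun A => 3 * C * Y.card * h ≤
        (coll A (A ∩ Ico s (s + h)) Y : ℝ))
      linarith
  rw [Pr_compl] at hcomb
  linarith

end Q109.RC
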