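import Pool.Agent.Q109.RC.Rec
import Pool.Agent.Q109.RC.Obl

namespace Q109.RC

open Finset Filter Topology

/-- The set of consecutive sums `a_i + ⋯ + a_j`, `i ≤ j`, of the increasing enumeration
`a` of the finite set `A`. -/
def S (A : Finset ℕ) : Finset ℕ :=
  ((Finset.univ : Finset (Fin A.card × Fin A.card)).filter (fun q => q.1 ≤ q.2)).image
    (fun q => ∑ u ∈ Finset.Icc q.1 q.2, A.orderEmbOfFin rfl u)

theorem sum_mem_S {A : Finset ℕ} {x y : ℕ} (hx : x ∈ A) (hy : y ∈ A) (hxy : x ≤ y) :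
    ∑ w ∈ A with (x ≤ w ∧ w ≤ y), w ∈ S A := by
  classical
  obtain ⟨i, hi⟩ : ∃ i, A.orderEmbOfFin rfl i = x := by
    have : x ∈ Set.range (A.orderEmbOfFin rfl) := by
      rw [Finset.range_orderEmbOfFin]; exact hx
    exact this
  obtain ⟨j, hj⟩ : ∃ j, A.orderEmbOfFin rfl j = y := by
    have : y ∈ Set.range (A.orderEmbOfFin rfl) := by
      rw [Finset.range_orderEmbOfFin]; exact hy
    exact this
  have hij : i ≤ j := by
    rw [← (A.orderEmbOfFin rfl).le_iff_le, hi, hj]; exact hxy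
  refine Finset.mem_image.2 ⟨(i, j), Finset.mem_filter.2 ⟨Finset.mem_univ _, hij⟩, ?_⟩
  have himg : A.filter (fun w => x ≤ w ∧ w ≤ y) =
      (Finset.Icc i j).image (fun u => A.orderEmbOfFin rfl u) := by
    ext w
    simp only [Finset.mem_filter, Finset.mem_image, Finset.mem_Icc]
    constructor
    · rintro ⟨hw, h1, h2⟩
      obtain ⟨u, hu⟩ : ∃ u, A.orderEmbOfFin rfl u = w := by
        have : w ∈ Set.range (A.orderEmbOfFin rfl) := by
          rw [Finset.range_orderEmbOfFin]; exact hw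
        exact this
      refine ⟨u, ⟨?_, ?_⟩, hu⟩
      · rw [← (A.orderEmbOfFin rfl).le_iff_le, hi, hu]; exact h1
      · rw [← (A.orderEmbOfFin rfl).le_iff_le, hj, hu]; exact h2
    · rintro ⟨u, ⟨h1, h2⟩, rfl⟩
      refine ⟨Finset.orderEmbOfFin_mem _ _ _, ?_, ?_⟩
      · rw [← hi]; exact (A.orderEmbOfFin rfl).monotone h1
      · rw [← hj]; exact (A.orderEmbOfFin rfl).monotone h2
  rw [himg, Finset.sum_image]
  intro u _ v _ h
  exact (A.orderEmbOfFin rfl).injective h

/-- offsets of the right end points above `m` -/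
def YF (e m : ℕ) (F : Finset ℕ) : Finset ℕ :=
  (F.filter (fun y => m < y)).image (fun y => ∑ w ∈ F with (e ≤ w ∧ w ≤ y), w)

theorem YF_step {e : ℕ} {F : Finset ℕ} {y y' : ℕ} (hy' : y' ∈ F) (hlt : y < y')
    (he : e ≤ y') : ∑ w ∈ F with (e ≤ w ∧ w ≤ y), w + y' ≤ ∑ w ∈ F with (e ≤ w ∧ w ≤ y'), w := by
  classical
  have h1 : insert y' (F.filter (fun w => e ≤ w ∧ w ≤ y)) ⊆ F.filter (fun w => e ≤ w ∧ w ≤ y') := by
    intro w hw
    rcases Finset.mem_insert.1 hw with rfl | hw
    · exact Finset.mem_filter.2 ⟨hy', he, le_rfl⟩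
    · have := Finset.mem_filter.1 hw
      exact Finset.mem_filter.2 ⟨this.1, this.2.1, this.2.2.trans hlt.le⟩
  have h2 : y' ∉ F.filter (fun w => e ≤ w ∧ w ≤ y) := by
    intro h
    have := (Finset.mem_filter.1 h).2.2
    omega
  have h3 := Finset.sum_le_sum_of_subset (f := fun w => w) h1
  rw [Finset.sum_insert h2] at h3
  omega

theorem YF_card {e m : ℕ} {F : Finset ℕ} (he : e ≤ m) :
    (YF e m F).card = (F.filter (fun y => m < y)).card := by
  classical
  unfold YF
  refine Finset.card_image_of_injOn ?_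
  intro y hy y' hy' heq
  have h1 := Finset.mem_filter.1 (Finset.mem_coe.1 hy)
  have h2 := Finset.mem_filter.1 (Finset.mem_coe.1 hy')
  simp only at heq
  rcases lt_trichotomy y y' with h | h | h
  · have := YF_step h2.1 h (by omega : e ≤ y')
    omega
  · exact h
  · have := YF_step h1.1 h (by omega : e ≤ y)
    omega

theorem YF_spaced {e m n : ℕ} {F : Finset ℕ} (he : e ≤ m) (hm : n ≤ 2 * (m + 1)) :
    ∀ a ∈ YF e m F, ∀ b ∈ YF e m F, a < b → n ≤ 2 * (b - a) := by
  classical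
  intro a ha b hb hab
  obtain ⟨y, hy, rfl⟩ := Finset.mem_image.1 ha
  obtain ⟨y', hy', rfl⟩ := Finset.mem_image.1 hb
  have h1 := Finset.mem_filter.1 hy
  have h2 := Finset.mem_filter.1 hy'
  rcases lt_trichotomy y y' with h | h | h
  · have := YF_step h2.1 h (by omega : e ≤ y')
    omega
  · subst h; omega
  · have := YF_step h1.1 h (by omega : e ≤ y)
    omega

theorem New_subset_S {s e m : ℕ} {F G : Finset ℕ} (hse : e ≤ m) (hG : G ⊆ Ico s e)
    (hF : ∀ w ∈ F, w < s ∨ e ≤ w) : New G (YF e m F) ⊆ S (F ∪ G) := by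
  classical
  intro t ht
  obtain ⟨x, hx, b, hb, rfl⟩ := mem_New.1 ht
  obtain ⟨y, hy, rfl⟩ := Finset.mem_image.1 hb
  have hy' := Finset.mem_filter.1 hy
  have hxI := Finset.mem_Ico.1 (hG hx)
  have hxy : x ≤ y := by omega
  have hmem := sum_mem_S (A := F ∪ G) (Finset.mem_union_right _ hx)
    (Finset.mem_union_left _ hy'.1) hxy
  have heq : ∑ w ∈ F ∪ G with (x ≤ w ∧ w ≤ y), w =
      up G x + ∑ w ∈ F with (e ≤ w ∧ w ≤ y), w := by
    unfold up
    have h1 : (F ∪ G).filter (fun w => x ≤ w ∧ w ≤ y) =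
        G.filter (fun w => x ≤ w) ∪ F.filter (fun w => e ≤ w ∧ w ≤ y) := by
      ext w
      simp only [Finset.mem_filter, Finset.mem_union]
      constructor
      · rintro ⟨hw | hw, h1, h2⟩
        · right
          refine ⟨hw, ?_, h2⟩
          rcases hF w hw with h | h
          · omega
          · exact h
        · left
          exact ⟨hw, h1⟩
      · rintro (⟨hw, h1⟩ | ⟨hw, h1, h2⟩)
        · have := Finset.mem_Ico.1 (hG hw)
          exact ⟨Or.inr hw, h1, by omega⟩
        · exact ⟨Or.inl hw, by omega, h2⟩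
    rw [h1, Finset.sum_union]
    refine Finset.disjoint_left.2 (fun w hw hw' => ?_)
    have h3 := Finset.mem_Ico.1 (hG (Finset.mem_filter.1 hw).1)
    have h4 := (Finset.mem_filter.1 hw').2.1
    omega
  rw [heq] at hmem
  exact hmem

theorem fin_main (hObl : S_Obl) {p : ℝ} (hp0 : 0 < p) (hp1 : p < 1) :
    ∃ c : ℝ, 0 < c ∧ Tendsto (fun n : ℕ => Pr p (Icc 1 n)
      (fun A => c * (n : ℝ) ^ 2 ≤ (S A).card)) atTop (𝓝 1) := by
  classical
  obtain ⟨c₁, hc₁, hobl⟩ := hObl p hp0 hp1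
  refine ⟨min (p ^ 2 / 960) (c₁ / 4), lt_min (by positivity) (by positivity), ?_⟩
  set c := min (p ^ 2 / 960) (c₁ / 4) with hc
  rw [Metric.tendsto_atTop]
  intro η hη
  -- choose t
  obtain ⟨t, ht⟩ : ∃ t : ℕ, ((4:ℝ) * (5 / 8) ^ 4) ^ t < η / 2 :=
    exists_pow_lt_of_lt_one (by positivity) (by norm_num)
  obtain ⟨t, ht1, ht⟩ : ∃ t : ℕ, 1 ≤ t ∧ ((4:ℝ) * (5 / 8) ^ 4) ^ t < η / 2 := by
    refine ⟨t + 1, by omega, ?_⟩
    rw [pow_succ]
    have : (0:ℝ) < ((4:ℝ) * (5 / 8) ^ 4) ^ t := by positivity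
    have h2 : ((4:ℝ) * (5 / 8) ^ 4) < 1 := by norm_num
    nlinarith
  set M := 4 * t with hM
  obtain ⟨n₀, hn₀⟩ := hobl M (by omega)
  obtain ⟨n₁, hn₁⟩ := exists_nat_gt (16 / (p * η))
  refine ⟨max (max n₀ n₁) (max (64 * M) 72), fun n hn => ?_⟩
  have hn0 : n₀ ≤ n := (le_max_left _ _).trans ((le_max_left _ _).trans hn)
  have hn1 : n₁ ≤ n := (le_max_right _ _).trans ((le_max_left _ _).trans hn)
  have hn2 : 64 * M ≤ n := (le_max_left _ _).trans ((le_max_right _ _).trans hn)
  have hn3 : 72 ≤ n := (le_max_right _ _).trans ((le_max_right _ _).trans hn)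
  have hnR : (0:ℝ) < n := by
    have : 0 < n := by omega
    exact_mod_cast this
  -- parameters
  set h := n / (16 * M) with hh
  have hMpos : 0 < 16 * M := by omega
  have h16 : 16 * M * h ≤ n := Nat.mul_div_le n (16 * M)
  have h64 : n ≤ 64 * M * h := by
    have h1 : n < 16 * M * (h + 1) := by
      have := Nat.lt_mul_div_succ n hMpos
      simpa [hh] using this
    have h2 : 1 ≤ h := by
      rw [hh, Nat.one_le_div_iff hMpos]; omega
    have h3 : 16 * M * (h + 1) ≤ 16 * M * (4 * h) := Nat.mul_le_mul_left _ (by omega)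
    have h4 : 16 * M * (4 * h) = 64 * M * h := by ring
    omega
  set s := n / 9 + 1 with hs
  set e := s + 2 * h * M with he
  have h8 : 8 * (2 * h * M) ≤ n := by
    have : 8 * (2 * h * M) = 16 * M * h := by ring
    omega
  have h4e : 4 * e ≤ n := by omega
  have h9s : n ≤ 9 * s := by omega
  set m := n / 2 with hm
  have hem : e ≤ m := by omega
  have hmn : n ≤ 2 * (m + 1) := by omega
  -- admissible sets
  set adm : Finset ℕ → Prop := fun Y => (∀ y ∈ Y, ∀ y' ∈ Y, y < y' → n ≤ 2 * (y' - y)) ∧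
    p * n / 8 ≤ Y.card ∧ Y.card ≤ n with hadm
  have hadm_shift : ∀ Y c, adm Y → adm (Y.image (fun y => y + c)) := by
    rintro Y d ⟨h1, h2, h3⟩
    have hcard : (Y.image (fun y => y + d)).card = Y.card :=
      Finset.card_image_of_injective _ (fun a b hab => by simpa using hab)
    refine ⟨?_, by rw [hcard]; exact h2, by rw [hcard]; exact h3⟩
    intro a ha b hb hab
    obtain ⟨y, hy, rfl⟩ := Finset.mem_image.1 ha
    obtain ⟨y', hy', rfl⟩ := Finset.mem_image.1 hb
    have := h1 y hy y' hy' (by omega)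
    omega
  have hREC := rec_blocks hp0 hp1 s h (p ^ 2 / 960 * n ^ 2) (c₁ * n ^ 2 / M) (by positivity)
    adm hadm_shift M (fun k hk Y V hY hV => by
      have hk' : 2 * h * k + 2 * h ≤ 2 * h * M := by
        have h1 : 2 * h * (k + 1) ≤ 2 * h * M := Nat.mul_le_mul_left _ hk
        have h2 : 2 * h * (k + 1) = 2 * h * k + 2 * h := by ring
        omega
      exact hn₀ n hn0 (s + 2 * h * k) h h64 h16 (by omega) (by omega) Y V hY.1 hY.2.1 hY.2.2 hV.le)
    M le_rfl t
  have hblock : ∀ Y, adm Y → Pr p (Ico s e) (fun A => ¬ (c * (n:ℝ) ^ 2 ≤ (New A Y).card)) ≤ η / 2 := by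
    intro Y hY
    have h1 := hREC Y ∅ hY
    have h2 : (4:ℝ) ^ t * (5 / 8) ^ M = ((4:ℝ) * (5 / 8) ^ 4) ^ t := by
      rw [hM, mul_pow, ← pow_mul]
    rw [h2] at h1
    refine le_trans (Pr_mono hp0.le hp1.le (fun A _ hA => ?_)) (h1.trans ht.le)
    push Not at hA
    rw [Finset.empty_union, Finset.card_empty]
    refine lt_of_lt_of_le hA ?_
    have hMR : (M:ℝ) = 4 * t := by rw [hM]; push_cast; ring
    have htR : (0:ℝ) < t := by exact_mod_cast ht1
    have h3 : ((0:ℕ):ℝ) + t * (c₁ * n ^ 2 / M) = c₁ / 4 * n ^ 2 := by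
      rw [hMR]; field_simp; simp
    rw [h3, hc]
    refine le_min ?_ ?_
    · exact mul_le_mul_of_nonneg_right (min_le_left _ _) (by positivity)
    · exact mul_le_mul_of_nonneg_right (min_le_right _ _) (by positivity)
  -- split
  have hBsub : Ico s e ⊆ Icc 1 n := by
    intro w hw
    have := Finset.mem_Ico.1 hw
    exact Finset.mem_Icc.2 ⟨by omega, by omega⟩
  have hsplit : Icc 1 n = (Icc 1 n \ Ico s e) ∪ Ico s e := (Finset.sdiff_union_of_subset hBsub).symm
  have hdis : Disjoint (Icc 1 n \ Ico s e) (Ico s e) := Finset.sdiff_disjoint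
  have hR : Ioc m n ⊆ Icc 1 n \ Ico s e := by
    intro w hw
    have := Finset.mem_Ioc.1 hw
    refine Finset.mem_sdiff.2 ⟨Finset.mem_Icc.2 ⟨by omega, by omega⟩, fun h => ?_⟩
    have := Finset.mem_Ico.1 h
    omega
  have hfail : Pr p (Icc 1 n) (fun A => ¬ (c * (n:ℝ) ^ 2 ≤ (S A).card)) < η := by
    rw [hsplit, Pr_union p hdis]
    have hstep := Ex_le_Pr (p := p) hp0.le hp1.le (Icc 1 n \ Ico s e)
      (fun F => p * n / 8 ≤ ((F ∩ Ioc m n).card : ℝ))
      (fun F => Pr p (Ico s e) (fun G => ¬ (c * (n:ℝ) ^ 2 ≤ (S (F ∪ G)).card)))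
      (a := η / 2) (b := 1) ?_ ?_
    · refine lt_of_le_of_lt hstep ?_
      have hE : 1 - Pr p (Icc 1 n \ Ico s e) (fun F => p * n / 8 ≤ ((F ∩ Ioc m n).card : ℝ))
          < η / 2 := by
        rw [← Pr_compl]
        have h1 : Pr p (Icc 1 n \ Ico s e) (fun F => ¬ (p * n / 8 ≤ ((F ∩ Ioc m n).card : ℝ))) =
          Pr p (Ioc m n) (fun F => ¬ (p * n / 8 ≤ (F.card : ℝ))) :=
          Pr_restrict p hR (fun F => ¬ (p * n / 8 ≤ (F.card : ℝ)))
        rw [h1]
        have h2 := cheb p hp0 hp1 (Ioc m n) (Finset.nonempty_Ioc.2 (by omega))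
        rw [Nat.card_Ioc] at h2
        have h3 : (n:ℝ) / 2 ≤ ((n - m : ℕ) : ℝ) := by
          have : n ≤ 2 * (n - m) := by omega
          have h4 : (n:ℝ) ≤ 2 * ((n - m : ℕ) : ℝ) := by exact_mod_cast this
          linarith
        refine lt_of_le_of_lt (Pr_mono hp0.le hp1.le (fun F _ hF => ?_)) (lt_of_le_of_lt h2 ?_)
        · push Not at hF
          refine lt_of_lt_of_le hF ?_
          have := mul_le_mul_of_nonneg_left h3 hp0.le
          nlinarith
        · have h5 : 0 < ((n - m : ℕ) : ℝ) := lt_of_lt_of_le (by positivity) h3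
          rw [div_lt_iff₀ (by positivity)]
          have h6 : 16 / (p * η) < n := lt_of_lt_of_le hn₁ (by exact_mod_cast hn1)
          rw [div_lt_iff₀ (by positivity)] at h6
          have h7 := mul_le_mul_of_nonneg_left h3 (by positivity : 0 ≤ p * η)
          nlinarith
      have hP1 := Pr_le_one (I := Icc 1 n \ Ico s e) hp0.le hp1.le
        (fun F => p * n / 8 ≤ ((F ∩ Ioc m n).card : ℝ))
      have hP0 := Pr_nonneg (I := Icc 1 n \ Ico s e) hp0.le hp1.le
        (fun F => p * n / 8 ≤ ((F ∩ Ioc m n).card : ℝ))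
      nlinarith
    · intro F hF hE
      have hY : adm (YF e m F) := by
        have hcard : (YF e m F).card = (F ∩ Ioc m n).card := by
          rw [YF_card hem]
          congr 1
          ext w
          simp only [Finset.mem_filter, Finset.mem_inter, Finset.mem_Ioc]
          constructor
          · rintro ⟨h1, h2⟩
            have := Finset.mem_Icc.1 (Finset.mem_sdiff.1 (hF h1)).1
            exact ⟨h1, h2, this.2⟩
          · rintro ⟨h1, h2, _⟩
            exact ⟨h1, h2⟩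
        refine ⟨YF_spaced hem hmn, by rw [hcard]; exact hE, ?_⟩
        rw [hcard]
        have := Finset.card_le_card (Finset.inter_subset_right : F ∩ Ioc m n ⊆ _)
        rw [Nat.card_Ioc] at this
        omega
      refine le_trans (Pr_mono hp0.le hp1.le (E' := fun A => ¬ (c * (n:ℝ) ^ 2 ≤
        (New A (YF e m F)).card)) (fun G hG hGn hcon => hGn ?_)) (hblock _ hY)
      have hsub := New_subset_S (F := F) hem hG (fun w hw => by
        have := (Finset.mem_sdiff.1 (hF hw)).2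
        rw [Finset.mem_Ico] at this
        omega)
      refine hcon.trans ?_
      exact_mod_cast Finset.card_le_card hsub
    · intro F _ _
      exact Pr_le_one hp0.le hp1.le _
  rw [Pr_compl] at hfail
  have hle := Pr_le_one (I := Icc 1 n) hp0.le hp1.le (fun A => c * (n:ℝ) ^ 2 ≤ (S A).card)
  rw [Real.dist_eq, abs_lt]
  constructor <;> linarith

end Q109.RC
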