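import Pool.Agent.Q109.RC.Cheb
import Pool.Agent.Q109.RC.Bad

namespace Q109.RC

open Finset

theorem up_union_left {F G : Finset ℕ} {x : ℕ} (hF : ∀ w ∈ F, w < x) :
    up (F ∪ G) x = up G x := by
  classical
  unfold up
  rw [Finset.filter_union, Finset.filter_false_of_mem (fun w hw => by
    have := hF w hw; omega), Finset.empty_union]

theorem New_union {F G Y : Finset ℕ} (hlt : ∀ x ∈ F, ∀ w ∈ G, x < w) :
    New (F ∪ G) Y = New G Y ∪ New F (Y.image (fun y => y + ∑ w ∈ G, w)) := by
  classical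
  have hd : Disjoint F G := Finset.disjoint_left.2 (fun x hx hx' => lt_irrefl _ (hlt x hx x hx'))
  ext t
  rw [Finset.mem_union, mem_New, mem_New, mem_New]
  constructor
  · rintro ⟨x, hx, y, hy, he⟩
    rcases Finset.mem_union.1 hx with hx | hx
    · right
      refine ⟨x, hx, y + ∑ w ∈ G, w, Finset.mem_image_of_mem _ hy, ?_⟩
      rw [up_union_right hd (fun w hw => (hlt x hx w hw).le)] at he
      omega
    · left
      refine ⟨x, hx, y, hy, ?_⟩
      rw [up_union_left (fun w hw => hlt w hw x hx)] at he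
      exact he
  · rintro (⟨x, hx, y, hy, he⟩ | ⟨x, hx, y', hy', he⟩)
    · refine ⟨x, Finset.mem_union_right _ hx, y, hy, ?_⟩
      rw [up_union_left (fun w hw => hlt w hw x hx)]
      exact he
    · obtain ⟨y, hy, rfl⟩ := Finset.mem_image.1 hy'
      refine ⟨x, Finset.mem_union_left _ hx, y, hy, ?_⟩
      rw [up_union_right hd (fun w hw => (hlt x hx w hw).le)]
      omega

theorem rec_blocks {p : ℝ} (hp0 : 0 < p) (hp1 : p < 1) (s h : ℕ) (θ g : ℝ) (hg : 0 ≤ g)
    (adm : Finset ℕ → Prop) (hadm : ∀ Y c, adm Y → adm (Y.image (fun y => y + c))) (K : ℕ)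
    (H : ∀ k < K, ∀ Y V : Finset ℕ, adm Y → (V.card : ℝ) < θ →
      1 / 2 ≤ Pr p (Ico (s + 2 * h * k) (s + 2 * h * k + 2 * h))
        (fun A => (V.card : ℝ) + g ≤ (V ∪ New A Y).card)) :
    ∀ k ≤ K, ∀ (t : ℕ) (Y V : Finset ℕ), adm Y →
      Pr p (Ico s (s + 2 * h * k))
        (fun A => ((V ∪ New A Y).card : ℝ) < min θ (V.card + t * g)) ≤ 4 ^ t * (5 / 8) ^ k := by
  classical
  intro k
  induction k with
  | zero =>
    intro _ t Y V hY
    rcases Nat.eq_zero_or_pos t with rfl | ht
    · simpa using Pr_le_one hp0.le hp1.le _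
    · refine (Pr_le_one hp0.le hp1.le _).trans ?_
      have : (1:ℝ) ≤ 4 ^ t := one_le_pow₀ (by norm_num)
      simpa using this
  | succ k ih =>
    intro hk t Y V hY
    have hmono : ∀ A : Finset ℕ, (V.card : ℝ) ≤ (V ∪ New A Y).card := by
      intro A
      exact_mod_cast Finset.card_le_card Finset.subset_union_left
    have hzero : (∀ A : Finset ℕ, ¬ (((V ∪ New A Y).card : ℝ) < min θ (V.card + t * g))) →
        Pr p (Ico s (s + 2 * h * (k + 1)))
        (fun A => ((V ∪ New A Y).card : ℝ) < min θ (V.card + t * g)) ≤ 4 ^ t * (5 / 8) ^ (k+1) := by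
      intro hno
      have : Pr p (Ico s (s + 2 * h * (k + 1)))
        (fun A => ((V ∪ New A Y).card : ℝ) < min θ (V.card + t * g)) = 0 := by
        unfold Pr
        exact Eq.trans (Ex_congr (fun F _ => if_neg (hno F)))
          (Ex_const p (Ico s (s + 2 * h * (k + 1))) 0)
      rw [this]; positivity
    rcases Nat.eq_zero_or_pos t with rfl | ht
    · refine hzero (fun A hA => ?_)
      have h1 := lt_of_lt_of_le hA (min_le_right _ _)
      have h2 := hmono A
      simp at h1
      norm_cast at h1 h2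
      omega
    by_cases hV : θ ≤ V.card
    · refine hzero (fun A hA => ?_)
      have h1 := lt_of_lt_of_le hA (min_le_left _ _)
      have h2 := hmono A
      linarith
    push Not at hV
    obtain ⟨t, rfl⟩ : ∃ t', t = t' + 1 := ⟨t - 1, by omega⟩
    have hsplit : Ico s (s + 2 * h * (k + 1)) =
        Ico (s + 2 * h * k) (s + 2 * h * k + 2 * h) ∪ Ico s (s + 2 * h * k) := by
      rw [Finset.union_comm, Finset.Ico_union_Ico_eq_Ico (by omega) (by omega)]
      congr 1
      ring
    have hdis : Disjoint (Ico (s + 2 * h * k) (s + 2 * h * k + 2 * h)) (Ico s (s + 2 * h * k)) :=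
      (Finset.Ico_disjoint_Ico_consecutive _ _ _).symm
    rw [hsplit, Pr_union p hdis]
    have hgood := H k (by omega) Y V hY hV
    set P := Pr p (Ico (s + 2 * h * k) (s + 2 * h * k + 2 * h))
      (fun A => (V.card : ℝ) + g ≤ (V ∪ New A Y).card) with hP
    have key : ∀ F ⊆ Ico (s + 2 * h * k) (s + 2 * h * k + 2 * h), ∀ G ⊆ Ico s (s + 2 * h * k),
        V ∪ New (F ∪ G) Y = (V ∪ New F Y) ∪ New G (Y.image (fun y => y + ∑ w ∈ F, w)) := by
      intro F hF G hG
      rw [Finset.union_comm F G, New_union (fun x hx w hw => ?_), Finset.union_assoc]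
      have h1 := Finset.mem_Ico.1 (hG hx)
      have h2 := Finset.mem_Ico.1 (hF hw)
      omega
    have hstep := Ex_le_Pr (p := p) hp0.le hp1.le (Ico (s + 2 * h * k) (s + 2 * h * k + 2 * h))
      (fun A => (V.card : ℝ) + g ≤ (V ∪ New A Y).card)
      (fun F => Pr p (Ico s (s + 2 * h * k)) (fun G =>
        ((V ∪ New (F ∪ G) Y).card : ℝ) < min θ (V.card + ((t + 1 : ℕ) : ℝ) * g)))
      (a := 4 ^ t * (5 / 8) ^ k) (b := 4 ^ (t + 1) * (5 / 8) ^ k) ?_ ?_
    · refine hstep.trans ?_
      have h5 : (0:ℝ) ≤ 4 ^ t * (5 / 8) ^ k := by positivity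
      rw [← hP]
      rw [pow_succ, pow_succ]
      nlinarith
    · intro F hF hs
      refine (Pr_mono hp0.le hp1.le (fun G hG hlt => ?_)).trans
        (ih (by omega) t (Y.image (fun y => y + ∑ w ∈ F, w)) (V ∪ New F Y) (hadm _ _ hY))
      rw [key F hF G hG] at hlt
      refine lt_of_lt_of_le hlt (min_le_min le_rfl ?_)
      push_cast
      linarith
    · intro F hF hs
      refine (Pr_mono hp0.le hp1.le (fun G hG hlt => ?_)).trans
        (ih (by omega) (t + 1) (Y.image (fun y => y + ∑ w ∈ F, w)) (V ∪ New F Y) (hadm _ _ hY))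
      rw [key F hF G hG] at hlt
      refine lt_of_lt_of_le hlt (min_le_min le_rfl ?_)
      have := hmono F
      linarith

end Q109.RC
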