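import Pool.Agent.Q109.RC.Defs

/-!
Project RC (helper109): full answer of MP_a40b8c_co: the consecutive sums of a `p`-random subset
of `[n]` cover at least `c n^2` numbers with high probability.  All statements with complete
proofs.  Notation: `q = 1 - p`, `#` = cardinality.  `Ex`, `Pr`, `T`, `up`, `New` and their basic
lemmas (`Ex_union`, `Ex_restrict`, `markov`, ...) are in `Defs.lean`.
-/

namespace Q109.RC

open Finset

/-- JOB CHEB.  Chebyshev.  Proof: `Ex p I (fun A => (#A - p #I)^2) = p (1-p) #I`, by induction on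
`I` (`Finset.induction_on`, `Ex_union` with `{a}` and `I`, also `Ex p I (fun A => #A) = p #I`);
if `#A < p #I / 2` then `(#A - p #I)^2 ≥ (p #I / 2)^2`; use `markov`. -/
def S_Cheb : Prop := ∀ p : ℝ, 0 < p → p < 1 → ∀ I : Finset ℕ, I.Nonempty →
  Pr p I (fun A => (A.card : ℝ) < p * I.card / 2) ≤ 4 / (p * I.card)

/-- JOB FOU.  Put `m = k+1`, `ζ = exp(2πi/m)`.  Orthogonality: `1[m ∣ N] = (1/m) ∑_{t<m} ζ^{tN}`,
so the left side is `(1/m) ∑_{t<m} ζ^{td} ∏_{i<k} (∑_{g=1}^G p q^{g-1} (ζ^{t(i+1)})^g)`.  Every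
factor has norm `≤ ∑ p q^{g-1} ≤ 1`.  If `|z| = 1` and `Re z ≤ 1/2` then
`|∑_{g=1}^G p q^{g-1} z^g| ≤ ρ := q^2 + p sqrt(1+q+q^2) < q^2 + p(1+q) = 1`: for `G ≤ 1` it is
`≤ p ≤ ρ`; for `G ≥ 2` the first two terms have norm `p |1 + q z|`, `|1+qz|^2 = 1+2q Re z+q^2 ≤
1+q+q^2`, and the others sum to `≤ ∑_{g≥3} p q^{g-1} ≤ q^2`.  For `1 ≤ t < m` we have
`∑_{i<m} Re ζ^{ti} = 0` (geometric sum); with `B` the number of `i < m` with `Re ζ^{ti} ≤ 1/2`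
this gives `0 ≥ (m-B)/2 - B`, so `3B ≥ m`, and `i = 0` is not one of them, so at least `m/3` of
the `k` factors (`i+1` runs over `1,…,m-1`) have norm `≤ ρ`.  Hence the left side is
`≤ (1/m)(1 + m ρ^{B}) ≤ (1/m)(1 + m σ^m)` with `σ = ρ^{1/3} < 1`, and `m σ^m` is bounded. -/
def S_Fou : Prop := ∀ p : ℝ, 0 < p → p < 1 → ∃ C : ℝ, 0 < C ∧ ∀ (k G : ℕ) (d : ℤ),
  ∑ g ∈ (Fintype.piFinset (fun _ : Fin k => Icc 1 G)).filter
      (fun g => ((k : ℤ) + 1) ∣ d + ∑ i : Fin k, (((i : ℕ) : ℤ) + 1) * (g i : ℤ)),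
    ∏ i : Fin k, (p * (1 - p) ^ (g i - 1)) ≤ C / (k + 1)

/-- JOB GAP (`S_Fou` may be assumed).  Proof: the left side is the sum of
`p^{#F} q^{z-x+1-#F}` over all nonempty `F ⊆ [a,b)` with `∑ F = d`, `x = min F`, `z = max F`.
Let `#F = m = k+1` with increasing enumeration `f_0 < … < f_k` (`Finset.orderEmbOfFin`), gaps
`g_i = f_{i+1} - f_i ∈ [1,b]` (`i < k`).  Then `d = ∑ f_i = m f_k - ∑_{i<k} (i+1) g_i`, so
`m ∣ d + ∑ (i+1) g_i`, the gap vector determines `f_k` and hence `F` (given `d`, `k`), and the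
weight is `p^{k+1} q^{z-x-k} = p ∏_i p q^{g_i-1}` as `z - x = ∑ g_i`.  By `S_Fou` the sets of size
`m` contribute at most `p C/m`.  Moreover `m a ≤ d < m b ≤ 3 m a`; with `D = d / a` (floor) this
gives `m ≤ D < 3m` (and `D ≥ 1`), so the total is at most `∑_{D/3 < m ≤ D} p C/m ≤ D * 3pC/D`. -/
def S_Gap : Prop := ∀ p : ℝ, 0 < p → p < 1 → ∃ C : ℝ, 0 < C ∧ ∀ a b d : ℕ, 1 ≤ a → b ≤ 3 * a →
  ∑ x ∈ Ico a b, ∑ z ∈ Ico x b,
    Pr p (Icc x z) (fun F => x ∈ F ∧ z ∈ F ∧ ∑ w ∈ F, w = d) ≤ C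

/-- JOB RUN.  Pairs `x < x'` of elements of the random set `A ⊆ [a,b)` whose elements in `[x,x')`
have sum `d`.  Proof: for such a pair let `z` be the largest element of `A` in `[x,x')`; then
`x ≤ z`, `∑ (A ∩ [x,z]) = d`, and `x'` is the smallest element of `A` above `z`, so the map
`(x,x') ↦ (x,z)` is injective.  The expected number of pairs `x ≤ z` in `A` with
`∑ (A ∩ [x,z]) = d` is `∑_{x≤z} Pr(x ∈ A, z ∈ A, ∑ A ∩ [x,z] = d)` (`Ex_sum`), and by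
`Pr_restrict` this is the right side. -/
def S_Run : Prop := ∀ p : ℝ, 0 < p → p < 1 → ∀ a b d : ℕ,
  Ex p (Ico a b) (fun A => (((A ×ˢ A).filter
      (fun q => q.1 < q.2 ∧ ∑ w ∈ A with (q.1 ≤ w ∧ w < q.2), w = d)).card : ℝ)) ≤
  ∑ x ∈ Ico a b, ∑ z ∈ Ico x b,
    Pr p (Icc x z) (fun F => x ∈ F ∧ z ∈ F ∧ ∑ w ∈ F, w = d)

/-- A set `J` of `2r` elements with two different `r`-element subsets whose sums differ by `Δ`. -/
def Good (r Δ : ℕ) (J : Finset ℕ) : Prop := J.card = 2 * r ∧ ∃ F ⊆ J, ∃ F' ⊆ J, F ≠ F' ∧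
  F.card = r ∧ F'.card = r ∧ ∑ w ∈ F', w = ∑ w ∈ F, w + Δ

/-- JOB SCALE.  `I k` (`k < K`) is the disjoint union of `L` good sets `J k i` of size `2 r_k`,
`r_k ≤ R`, with difference `2^k`; all of them are pairwise disjoint and contained in `U`.  If
`0 ≤ f ≤ b` and every window of `2^K` consecutive values of `f` has sum at most `s`, then
`T p U f ≤ K η b + s/2^K`, `η = (1 - 2 (pq)^R)^L`.
Proof.  (1) `T p (I ∪ J) f = T p I (T p J f)` for disjoint `I, J` (`Ex_union`); `T p I` is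
monotone, linear, commutes with translations of `f`, and `f ≤ c` implies `T p I f ≤ c`
(`T p U f = T p (U \ I) (T p I f)` then handles the rest of `U`).
(2) If `J` is `Good r Δ`, `0 ≤ f ≤ b` and `f t + f (t+Δ) ≤ 2 b'` for all `t`, then, with
`α = (pq)^r` = the probability that `A = F` = the probability that `A = F'`,
`T p J f t ≤ (1-2α) b + α (f (t+∑F) + f (t+∑F+Δ)) ≤ (1-2α) b + 2α b'`, and `T p J f` satisfies
the same hypothesis `T p J f t + T p J f (t+Δ) ≤ 2b'`.  Here `b' ≤ b` may be assumed (otherwise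
replace `b'` by `b`), so `α` may be replaced by the smaller `(pq)^R` (as `r ≤ R`).
(3) Induction over `L` such sets: `T … f ≤ (1-2α)^L b + b'`.
(4) Let `W_k f (t) = ∑_{j<2^k} f (t+j)`; then `W_{k+1} f (t) = W_k f (t) + W_k f (t+2^k)`.  If
`W_{k+1} f ≤ s` then by (3) for `W_k f` (values in `[0, 2^k b]`), `Δ = 2^k`, `b' = s/2`, and since
`T` commutes with `W_k`: `W_k (T p (I k) f) ≤ η 2^k b + s/2`.  So applying `k = K-1, …, 0`
(downward induction) gives `T p (⋃_{k<K} I k) f ≤ K η b + s/2^K`. -/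
def S_Scale : Prop := ∀ p : ℝ, 0 < p → p < 1 → ∀ (K L R : ℕ) (U : Finset ℕ) (r : ℕ → ℕ)
  (J : ℕ → ℕ → Finset ℕ), (∀ k < K, r k ≤ R) →
  (∀ k < K, ∀ i < L, J k i ⊆ U ∧ Good (r k) (2 ^ k) (J k i)) →
  (∀ k < K, ∀ i < L, ∀ k' < K, ∀ i' < L, (k, i) ≠ (k', i') → Disjoint (J k i) (J k' i')) →
  ∀ (f : ℕ → ℝ) (b s : ℝ), (∀ t, 0 ≤ f t) → (∀ t, f t ≤ b) →
  (∀ t, ∑ j ∈ range (2 ^ K), f (t + j) ≤ s) →
  ∀ t, T p U f t ≤ K * (1 - 2 * (p * (1 - p)) ^ R) ^ L * b + s / 2 ^ K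

/-- JOB EMB.  Greedy embedding: in the interval `[s, s+u)` there are `K L` pairwise disjoint good
sets `J k i` (`k < K`, `i < L`) with `r_k` pairs each of difference `δ_k`.
Proof.  Greedy lemma: for every `N` with `8 N ≤ u` and every `d : ℕ → ℕ` with `1 ≤ d i`,
`2 d i ≤ u` there are `z_0, …, z_{N-1}` with `z_i, z_i + d_i ∈ [s,s+u)` such that all the
`2N` numbers `z_i`, `z_i + d_i` are different: choose `z_i ∈ [s, s + ⌊u/2⌋)` one after the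
other; the used set `X` has at most `2i` elements and `z ∈ X` or `z + d_i ∈ X` excludes at most
`4 i ≤ 4(N-1) < ⌊u/2⌋` values.  Apply it with `N = K L R`, index the pairs by
`(k, i, j)`, `j < R`, and put `Z = {z_{(k,i,j)} : j < r_k}`, `J k i = Z ∪ (Z + δ_k)`; the two
subsets are `Z` and `Z + δ_k` (they are different since `r_k ≥ 1` and the sum differs by
`r_k δ_k ≥ 1`). -/
def S_Emb : Prop := ∀ (K L R u s : ℕ) (r δ : ℕ → ℕ),
  (∀ k < K, 1 ≤ r k ∧ r k ≤ R ∧ 1 ≤ δ k ∧ 2 * δ k ≤ u) → 8 * (K * L * R) ≤ u →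
  ∃ J : ℕ → ℕ → Finset ℕ,
    (∀ k < K, ∀ i < L, J k i ⊆ Ico s (s + u) ∧ Good (r k) (r k * δ k) (J k i)) ∧
    (∀ k < K, ∀ i < L, ∀ k' < K, ∀ i' < L, (k, i) ≠ (k', i') → Disjoint (J k i) (J k' i'))

/-- JOB LOC (`S_Scale`, `S_Emb` may be assumed).  Local limit bound.
Proof.  `f t := 1` if `t + y = v` for some `y ∈ Y`, else `0`; by the spacing this `y` is unique, so
`∑_y Pr(∑A + y = v) = T p U f 0` (or only `≤`).  Let `2^K ≤ n/2 < 2^{K+1}`, i.e. `K = Nat.log 2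
(n/2)`.  A window of `2^K` consecutive `t` contains at most one with `f t = 1` (two would give
`y ≠ y'` with `|y-y'| < 2^K ≤ n/2`), so `S_Scale` applies with `b = s = 1`.  Let `2^E ≥ 64 M`
(`E = 64 M` is fine), `R = 2^E`, `L = ⌊√n⌋` (`Nat.sqrt n`); for `k < K` put `r_k = 2^{min(k,E)}`,
`δ_k = 2^{k - min(k,E)}`; so `r_k δ_k = 2^k`, `r_k ≤ R`, and `2 δ_k ≤ u`: if `k ≤ E` this says
`2 ≤ u`, and if `k > E` then `2 δ_k = 2^{k+1}/2^E ≤ 2^K/2^E ≤ n/(2·64 M) ≤ u`.  For large `n`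
(depending on `p, M`) `8 K L R ≤ u` (as `u ≥ n/(64M)` and `K ≤ log n`), so `S_Emb` gives the
sets.  Conclusion: `T p U f 0 ≤ K (1-2(pq)^R)^{⌊√n⌋} + 1/2^K ≤ 1/n + 4/n` for large `n`
(`2^{K+1} > ⌊n/2⌋`, so `2^{K+1} ≥ n/2`, `1/2^K ≤ 4/n`). -/
def S_Loc : Prop := ∀ p : ℝ, 0 < p → p < 1 → ∀ M : ℕ, ∃ n₀ : ℕ, ∀ n ≥ n₀, ∀ s u : ℕ,
  n ≤ 64 * M * u → ∀ Y : Finset ℕ, (∀ y ∈ Y, ∀ y' ∈ Y, y < y' → n ≤ 2 * (y' - y)) →
  ∀ v : ℕ, ∑ y ∈ Y, Pr p (Ico s (s + u)) (fun A => ∑ w ∈ A, w + y = v) ≤ 5 / n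

/-- number of pairs `(x,y)`, `x ∈ A'`, `y ∈ Y` with `up A x + y ∈ V` -/
def bad (A A' Y V : Finset ℕ) : ℕ := ((A' ×ˢ Y).filter (fun q => up A q.1 + q.2 ∈ V)).card

/-- number of quadruples `x < x'` in `A'`, `y, y'` in `Y` with `up A x + y = up A x' + y'` -/
def coll (A A' Y : Finset ℕ) : ℕ :=
  (((A' ×ˢ A') ×ˢ (Y ×ˢ Y)).filter
    (fun q => q.1.1 < q.1.2 ∧ up A q.1.1 + q.2.1 = up A q.1.2 + q.2.2)).card

/-- JOB CS.  Proof: let `G` be the set of pairs `(x,y) ∈ A' × Y` with `up A x + y ∉ V`, so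
`#G = #A' #Y - bad`, and let `D` be the image of `G` under `(x,y) ↦ up A x + y`; then
`D ⊆ New A Y \ V`, so `#D ≤ #(V ∪ New A Y) - #V`.  Cauchy–Schwarz over the fibres:
`#G^2 ≤ #D * #{(g,g') ∈ G × G with the same value}`
(`Finset.sum_mul_sq_le_sq_mul_sq` / `inner_mul_le_norm_mul_norm` / `sq_sum_le_card_mul_sum_sq`),
and the number of such pairs `((x,y),(x',y'))` is at most `#A' #Y` (those with `x = x'`, then
`y = y'`) plus `2 coll` (those with `x < x'` or `x' < x`). -/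
def S_CS : Prop := ∀ A A' Y V : Finset ℕ, A' ⊆ A →
  ((A'.card : ℝ) * Y.card - bad A A' Y V) ^ 2 ≤
    (((V ∪ New A Y).card : ℝ) - V.card) * ((A'.card : ℝ) * Y.card + 2 * coll A A' Y)

/-- JOB BAD.  Proof: split `[s, s+2h) = [s,s+h) ∪ [s+h,s+2h)` (`Ex_union`), `A = A₁ ∪ A₂`.  Fix
`A₁`; for `x ∈ A₁` we have `up A x = up A₁ x + ∑ A₂`, so
`bad ≤ ∑_{x ∈ A₁} ∑_{v ∈ V} #{y ∈ Y : ∑ A₂ + y + up A₁ x = v}`, and for each `x`, `v` the
expectation over `A₂` of the inner count is `∑_y Pr(∑A₂ + y = v - up A₁ x) ≤ β` (if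
`v < up A₁ x` it is `0`).  So the total is `≤ #A₁ #V β ≤ h #V β`. -/
def S_Bad : Prop := ∀ p : ℝ, 0 < p → p < 1 → ∀ (s h : ℕ) (Y V : Finset ℕ) (β : ℝ),
  (∀ v : ℕ, ∑ y ∈ Y, Pr p (Ico (s + h) (s + 2 * h)) (fun A => ∑ w ∈ A, w + y = v) ≤ β) →
  Ex p (Ico s (s + 2 * h)) (fun A => (bad A (A ∩ Ico s (s + h)) Y V : ℝ)) ≤ h * V.card * β

/-- JOB COL.  Proof: if `x < x'` are in `A' = A ∩ [s,s+h)` and `up A x + y = up A x' + y'`, then
`y' - y = ∑ (A ∩ [x,x')) = ∑ (A' ∩ [x,x')) =: d > 0` and `d ≤ h n/4` (at most `h` elements, each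
`< s + h ≤ n/4`).  So `coll ≤ ∑ over pairs y < y' in Y with 4 (y'-y) ≤ h n of the number of
`x < x'` in `A'` with `∑ (A' ∩ [x,x')) = y' - y`.  By `Ex_restrict` and the hypothesis the
expectation of each such number is at most `C`, and for each `y` the number of `y' > y`
in `Y` with `4 (y'-y) ≤ h n` is at most `h/2`: by the spacing these `y'` satisfy
`y'_j - y ≥ j n/2` for the `j`-th one, so `4 j n/2 ≤ h n`. -/
def S_Col : Prop := ∀ p : ℝ, 0 < p → p < 1 → ∀ (s h n : ℕ) (Y : Finset ℕ) (C : ℝ), 0 < n →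
  1 ≤ s → 4 * (s + h) ≤ n → (∀ y ∈ Y, ∀ y' ∈ Y, y < y' → n ≤ 2 * (y' - y)) →
  (∀ d : ℕ, Ex p (Ico s (s + h)) (fun A => (((A ×ˢ A).filter
      (fun q => q.1 < q.2 ∧ ∑ w ∈ A with (q.1 ≤ w ∧ w < q.2), w = d)).card : ℝ)) ≤ C) →
  Ex p (Ico s (s + 2 * h)) (fun A => (coll A (A ∩ Ico s (s + h)) Y : ℝ)) ≤ C * Y.card * h / 2

/-- JOB OBL (one-block lemma; everything above may be assumed). -/
def S_Obl : Prop := ∀ p : ℝ, 0 < p → p < 1 → ∃ c₁ : ℝ, 0 < c₁ ∧ ∀ M : ℕ, 0 < M → ∃ n₀ : ℕ,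
  ∀ n ≥ n₀, ∀ s h : ℕ, n ≤ 64 * M * h → 16 * M * h ≤ n → n ≤ 9 * s → 4 * (s + 2 * h) ≤ n →
  ∀ Y V : Finset ℕ, (∀ y ∈ Y, ∀ y' ∈ Y, y < y' → n ≤ 2 * (y' - y)) →
  p * n / 8 ≤ Y.card → Y.card ≤ n → (V.card : ℝ) ≤ p ^ 2 / 960 * n ^ 2 →
  1 / 2 ≤ Pr p (Ico s (s + 2 * h))
    (fun A => (V.card : ℝ) + c₁ * n ^ 2 / M ≤ (V ∪ New A Y).card)

end Q109.RC
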